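import Mathlib

/-!
Bilinear sums of characters: the method of moments with exponent six.
-/

set_option autoImplicit false

open Finset

namespace Pool.Agent.Y779.CX

open scoped ComplexConjugate

/-- the second moment -/
theorem second {ι R : Type} (P : Finset ι) (D : Finset R) (xi : ι → R → ℂ)
    (hxi : ∀ m ∈ P, ∀ g, ‖xi m g‖ ≤ 1) (E : ℝ) (hE : 0 ≤ E)
    (hoff : ∀ m ∈ P, ∀ m' ∈ P, m ≠ m' → ‖∑ g ∈ D, xi m g * conj (xi m' g)‖ ≤ E)
    (eps : ι → ℂ) (heps : ∀ m, ‖eps m‖ ≤ 1) :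
    ∑ g ∈ D, ‖∑ m ∈ P, eps m * xi m g‖ ^ 2 ≤ P.card * D.card + (P.card : ℝ) ^ 2 * E := by
  classical
  have e1 : ((∑ g ∈ D, ‖∑ m ∈ P, eps m * xi m g‖ ^ 2 : ℝ) : ℂ) =
      ∑ m ∈ P, ∑ m' ∈ P, eps m * conj (eps m') * ∑ g ∈ D, xi m g * conj (xi m' g) := by
    push_cast
    have e2 : ∀ g ∈ D, ((‖∑ m ∈ P, eps m * xi m g‖ : ℝ) : ℂ) ^ 2 =
        ∑ m ∈ P, ∑ m' ∈ P, (eps m * xi m g) * conj (eps m' * xi m' g) := by
      intro g _
      rw [← Complex.mul_conj', map_sum, sum_mul_sum]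
    rw [sum_congr rfl e2, sum_comm]
    refine sum_congr rfl fun m _ => ?_
    rw [sum_comm]
    refine sum_congr rfl fun m' _ => ?_
    rw [mul_sum]
    refine sum_congr rfl fun g _ => ?_
    rw [map_mul]
    ring
  have h0 : 0 ≤ ∑ g ∈ D, ‖∑ m ∈ P, eps m * xi m g‖ ^ 2 := sum_nonneg fun _ _ => sq_nonneg _
  have e3 : ∑ g ∈ D, ‖∑ m ∈ P, eps m * xi m g‖ ^ 2 =
      ‖∑ m ∈ P, ∑ m' ∈ P, eps m * conj (eps m') * ∑ g ∈ D, xi m g * conj (xi m' g)‖ := by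
    rw [← e1, Complex.norm_real, Real.norm_of_nonneg h0]
  rw [e3]
  have h2 : ∀ m ∈ P, ∀ m' ∈ P, ‖eps m * conj (eps m') * ∑ g ∈ D, xi m g * conj (xi m' g)‖ ≤
      (if m = m' then (D.card : ℝ) else 0) + E := by
    intro m hm m' hm'
    have hcc : ‖eps m * conj (eps m')‖ ≤ 1 := by
      rw [norm_mul, Complex.norm_conj]
      exact mul_le_one₀ (heps m) (norm_nonneg _) (heps m')
    rw [norm_mul]
    refine (mul_le_of_le_one_left (norm_nonneg _) hcc).trans ?_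
    split_ifs with h
    · refine le_trans ?_ (le_add_of_nonneg_right hE)
      refine (norm_sum_le _ _).trans ?_
      refine (sum_le_sum (g := fun _ => (1 : ℝ)) fun g _ => ?_).trans ?_
      · rw [norm_mul, Complex.norm_conj]
        exact mul_le_one₀ (hxi m hm g) (norm_nonneg _) (hxi m' hm' g)
      · rw [sum_const, nsmul_eq_mul, mul_one]
    · rw [zero_add]
      exact hoff m hm m' hm' h
  refine (norm_sum_le _ _).trans ?_
  refine (sum_le_sum fun m _ => norm_sum_le _ _).trans ?_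
  refine (sum_le_sum fun m hm => sum_le_sum fun m' hm' => h2 m hm m' hm').trans ?_
  simp only [sum_add_distrib, sum_ite_eq, sum_const, nsmul_eq_mul]
  rw [sum_congr rfl fun x hx => if_pos hx, sum_const, nsmul_eq_mul]
  apply le_of_eq
  ring

/-- the number of factorisations -/
theorem card_fact {κ R : Type} [CommMonoid R] (L : Finset κ) (φ : κ → R) (n : ℕ)
    (hu : ∀ x ∈ L, ∀ s : Fin n → κ, (∀ i, s i ∈ L) → φ x ∣ ∏ i, φ (s i) → ∃ i, x = s i)
    [DecidableEq R] (q : R) :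
    ((Fintype.piFinset fun _ : Fin n => L).filter fun s => ∏ i, φ (s i) = q).card ≤ n ^ n := by
  classical
  rcases Finset.eq_empty_or_nonempty ((Fintype.piFinset fun _ : Fin n => L).filter
    fun s => ∏ i, φ (s i) = q) with h | ⟨p₀, hp₀⟩
  · rw [h]; simp
  rw [mem_filter, Fintype.mem_piFinset] at hp₀
  have h1 : ((Fintype.piFinset fun _ : Fin n => L).filter fun s => ∏ i, φ (s i) = q) ⊆
      Fintype.piFinset fun _ : Fin n => univ.image p₀ := by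
    intro p hp
    rw [mem_filter, Fintype.mem_piFinset] at hp
    rw [Fintype.mem_piFinset]
    intro i
    have h2 : φ (p i) ∣ ∏ i, φ (p₀ i) := by
      rw [hp₀.2, ← hp.2]
      exact dvd_prod_of_mem (fun i => φ (p i)) (mem_univ i)
    obtain ⟨j, hj⟩ := hu (p i) (hp.1 i) p₀ hp₀.1 h2
    rw [mem_image]
    exact ⟨j, mem_univ j, hj.symm⟩
  refine (card_le_card h1).trans ?_
  rw [Fintype.card_piFinset]
  simp only [prod_const, card_univ, Fintype.card_fin]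
  have h3 : (univ.image p₀).card ≤ n := by
    refine card_image_le.trans ?_
    simp
  exact Nat.pow_le_pow_left h3 n

theorem xi_prod {R : Type} [CommMonoid R] (f : R → ℂ) (h1 : f 1 = 1)
    (hm : ∀ x y, f (x * y) = f x * f y) {ι : Type} (s : Finset ι) (g : ι → R) :
    f (∏ i ∈ s, g i) = ∏ i ∈ s, f (g i) := by
  classical
  induction s using Finset.induction_on with
  | empty => rw [prod_empty, prod_empty, h1]
  | insert a s ha ih => rw [prod_insert ha, prod_insert ha, hm, ih]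

/-- **Bilinear sums of characters.** -/
theorem holder {ι κ R : Type} [CommMonoid R] (P : Finset ι) (L : Finset κ) (D : Finset R)
    (φ : κ → R) (xi : ι → R → ℂ) (h1 : ∀ m ∈ P, xi m 1 = 1)
    (hm : ∀ m ∈ P, ∀ x y, xi m (x * y) = xi m x * xi m y)
    (hD : ∀ s : Fin 6 → κ, (∀ i, s i ∈ L) → ∏ i, φ (s i) ∈ D)
    (hu : ∀ x ∈ L, ∀ s : Fin 6 → κ, (∀ i, s i ∈ L) → φ x ∣ ∏ i, φ (s i) → ∃ i, x = s i)
    (c : ι → ℂ) (d : κ → ℂ) (hc : ∀ m, ‖c m‖ ≤ 1) (hd : ∀ x, ‖d x‖ ≤ 1) (W : ℝ)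
    (hW : ∀ eps : ι → ℂ, (∀ m, ‖eps m‖ ≤ 1) → ∑ g ∈ D, ‖∑ m ∈ P, eps m * xi m g‖ ^ 2 ≤ W) :
    ‖∑ m ∈ P, ∑ x ∈ L, c m * d x * xi m (φ x)‖ ^ 12 ≤
      (P.card : ℝ) ^ 10 * ((L.card : ℝ) ^ 6 * (6 ^ 6 * W)) := by
  classical
  set X : ι → ℂ := fun m => ∑ x ∈ L, d x * xi m (φ x) with hX
  set eps : ι → ℂ := fun m => if X m = 0 then 0 else ((‖X m‖ ^ 6 : ℝ) : ℂ) / (X m) ^ 6 with heps
  set Y : R → ℂ := fun g => ∑ m ∈ P, eps m * xi m g with hY
  set T : Finset (Fin 6 → κ) := Fintype.piFinset fun _ : Fin 6 => L with hT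
  set M : ℝ := ∑ s ∈ T, ‖Y (∏ i, φ (s i))‖ with hM
  have hM0 : 0 ≤ M := sum_nonneg fun _ _ => norm_nonneg _
  have heps1 : ∀ m, ‖eps m‖ ≤ 1 := by
    intro m
    simp only [heps]
    split_ifs with h
    · simp
    · rw [norm_div, Complex.norm_real, norm_pow, norm_pow, norm_norm, div_self]
      exact pow_ne_zero _ (norm_ne_zero_iff.2 h)
  have heps2 : ∀ m, eps m * (X m) ^ 6 = ((‖X m‖ ^ 6 : ℝ) : ℂ) := by
    intro m
    simp only [heps]
    split_ifs with h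
    · rw [h]; simp
    · exact div_mul_cancel₀ _ (pow_ne_zero _ h)
  -- the first step
  have s1 : ‖∑ m ∈ P, ∑ x ∈ L, c m * d x * xi m (φ x)‖ ≤ ∑ m ∈ P, ‖X m‖ := by
    refine (norm_sum_le _ _).trans (sum_le_sum fun m _ => ?_)
    have e : ∑ x ∈ L, c m * d x * xi m (φ x) = c m * X m := by
      rw [hX, mul_sum]
      exact sum_congr rfl fun x _ => by ring
    rw [e, norm_mul]
    exact mul_le_of_le_one_left (norm_nonneg _) (hc m)
  have s2 : (∑ m ∈ P, ‖X m‖) ^ 6 ≤ (P.card : ℝ) ^ 5 * ∑ m ∈ P, ‖X m‖ ^ 6 :=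
    pow_sum_le_card_mul_sum_pow (s := P) (f := fun m => ‖X m‖) (fun _ _ => norm_nonneg _) 5
  have s3 : ∑ m ∈ P, ‖X m‖ ^ 6 ≤ M := by
    have e1 : ((∑ m ∈ P, ‖X m‖ ^ 6 : ℝ) : ℂ) =
        ∑ s ∈ T, (∏ i, d (s i)) * Y (∏ i, φ (s i)) := by
      rw [Complex.ofReal_sum]
      have e2 : ∀ m ∈ P, ((‖X m‖ ^ 6 : ℝ) : ℂ) =
          ∑ s ∈ T, (∏ i, d (s i)) * (eps m * xi m (∏ i, φ (s i))) := by
        intro m hmP
        rw [← heps2 m]
        have e3 : (X m) ^ 6 = ∏ _i : Fin 6, ∑ x ∈ L, d x * xi m (φ x) := by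
          rw [prod_const, card_univ, Fintype.card_fin]
        rw [e3, prod_univ_sum, mul_sum]
        refine sum_congr rfl fun s _ => ?_
        rw [prod_mul_distrib, xi_prod (xi m) (h1 m hmP) (hm m hmP)]
        ring
      rw [sum_congr rfl e2, sum_comm]
      refine sum_congr rfl fun s _ => ?_
      rw [hY, mul_sum]
    have e4 : ∑ m ∈ P, ‖X m‖ ^ 6 = ‖∑ s ∈ T, (∏ i, d (s i)) * Y (∏ i, φ (s i))‖ := by
      rw [← e1, Complex.norm_real, Real.norm_of_nonneg (sum_nonneg fun _ _ => by positivity)]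
    rw [e4]
    refine (norm_sum_le _ _).trans (sum_le_sum fun s _ => ?_)
    rw [norm_mul]
    refine mul_le_of_le_one_left (norm_nonneg _) ?_
    rw [norm_prod]
    exact prod_le_one (fun _ _ => norm_nonneg _) fun _ _ => hd _
  -- the second step
  have hcardT : (T.card : ℝ) = (L.card : ℝ) ^ 6 := by
    rw [hT, Fintype.card_piFinset]
    simp only [prod_const, card_univ, Fintype.card_fin]
    push_cast
    rfl
  have s4 : M ^ 2 ≤ T.card * ∑ s ∈ T, ‖Y (∏ i, φ (s i))‖ ^ 2 :=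
    sq_sum_le_card_mul_sum_sq (s := T) (f := fun s => ‖Y (∏ i, φ (s i))‖)
  have s5 : ∑ s ∈ T, ‖Y (∏ i, φ (s i))‖ ^ 2 ≤ 6 ^ 6 * W := by
    have h6 : ∑ s ∈ T, ‖Y (∏ i, φ (s i))‖ ^ 2 ≤ 6 ^ 6 * ∑ g ∈ D, ‖Y g‖ ^ 2 := by
      rw [← sum_fiberwise_of_maps_to (s := T) (t := D) (g := fun s => ∏ i, φ (s i))]
      · rw [mul_sum]
        refine sum_le_sum fun q _ => ?_
        have e : ∀ s ∈ T.filter (fun s => ∏ i, φ (s i) = q),
            ‖Y (∏ i, φ (s i))‖ ^ 2 = ‖Y q‖ ^ 2 := by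
          intro s hs
          rw [(mem_filter.1 hs).2]
        rw [sum_congr rfl e, sum_const, nsmul_eq_mul]
        refine mul_le_mul_of_nonneg_right ?_ (sq_nonneg _)
        exact_mod_cast card_fact L φ 6 hu q
      · intro s hs
        rw [hT, Fintype.mem_piFinset] at hs
        exact hD s hs
    exact h6.trans (mul_le_mul_of_nonneg_left (hW eps heps1) (by norm_num))
  have s6 : M ^ 2 ≤ (L.card : ℝ) ^ 6 * (6 ^ 6 * W) := by
    refine s4.trans ?_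
    rw [hcardT]
    exact mul_le_mul_of_nonneg_left s5 (by positivity)
  have s7 : ‖∑ m ∈ P, ∑ x ∈ L, c m * d x * xi m (φ x)‖ ^ 6 ≤ (P.card : ℝ) ^ 5 * M :=
    (pow_le_pow_left₀ (norm_nonneg _) s1 6).trans
      (s2.trans (mul_le_mul_of_nonneg_left s3 (by positivity)))
  calc ‖∑ m ∈ P, ∑ x ∈ L, c m * d x * xi m (φ x)‖ ^ 12
      = (‖∑ m ∈ P, ∑ x ∈ L, c m * d x * xi m (φ x)‖ ^ 6) ^ 2 := by rw [← pow_mul]
    _ ≤ ((P.card : ℝ) ^ 5 * M) ^ 2 := pow_le_pow_left₀ (by positivity) s7 2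
    _ = (P.card : ℝ) ^ 10 * M ^ 2 := by ring
    _ ≤ _ := mul_le_mul_of_nonneg_left s6 (by positivity)

end Pool.Agent.Y779.CX
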